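import Mathlib
import Pool.Agent.N891.WG.Growth

open Finset Filter MeasureTheory

namespace Pool.Agent.Results.MP_3c4aa6_nt.PositiveMeasure

open Pool.Agent.N891.WG

/-- The Weyl sum `S_d(x; N) = ∑_{n=1}^N exp(2 π i (x_1 n + x_2 n^2 + ... + x_d n^d))`; the
coordinate `x_j` is `x (j-1)`. -/
noncomputable def weylSum (d : ℕ) (x : EuclideanSpace ℝ (Fin d)) (N : ℕ) : ℂ :=
  ∑ n ∈ Finset.Icc 1 N,
    Complex.exp (2 * Real.pi * Complex.I * ((∑ i : Fin d, x i * (n : ℝ) ^ ((i : ℕ) + 1) : ℝ) : ℂ))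

/-- The growth exponent `σ(x) = limsup_N log |S_d(x;N)| / log N`, as an extended real number
(`log 0 = -∞`). -/
noncomputable def growthExponent (d : ℕ) (x : EuclideanSpace ℝ (Fin d)) : EReal :=
  limsup (fun N : ℕ => ENNReal.log ‖weylSum d x N‖ₑ / ((Real.log N : ℝ) : EReal)) atTop

/-- The level set `Ω_α^{(d)}` inside the unit torus `[0,1)^d`. -/
def Omega (d : ℕ) (α : ℝ) : Set (EuclideanSpace ℝ (Fin d)) :=
  {x | (∀ i, x i ∈ Set.Ico (0 : ℝ) 1) ∧ growthExponent d x = (α : EReal)}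

/-- the point `(x_1, β, 0, ..., 0)` -/
noncomputable def pt (m : ℕ) (u v : ℝ) : EuclideanSpace ℝ (Fin (m + 2)) :=
  WithLp.toLp 2 (fun i => if (i : ℕ) = 0 then u else if (i : ℕ) = 1 then v else 0)

lemma weylSum_pt (m : ℕ) (u v : ℝ) (N : ℕ) :
    weylSum (m + 2) (pt m u v) N = ∑ n ∈ Finset.Icc 1 N, e (u * n + v * (n : ℝ) ^ 2) := by
  unfold weylSum e
  apply Finset.sum_congr rfl
  intro n _
  congr 3
  rw [Fin.sum_univ_succ, Fin.sum_univ_succ]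
  simp [pt]

lemma Icc_shift (f : ℕ → ℂ) (N : ℕ) : ∑ n ∈ Finset.Icc 1 N, f n = ∑ n ∈ range N, f (n + 1) := by
  induction N with
  | zero => simp
  | succ N ih => rw [Finset.sum_Icc_succ_top (by omega), ih, Finset.sum_range_succ]

variable {τ : ℝ}

lemma up_pt (hτ : 3 < τ) (m : ℕ) (u : ℝ) (c : ℝ) (hc : 1 - 1 / τ < c) :
    ∀ᶠ N : ℕ in atTop, ‖weylSum (m + 2) (pt m u (beta τ)) N‖ ≤ (N : ℝ) ^ c := by
  obtain ⟨C, hC, hup⟩ := upper hτ
  set δ : ℝ := 2 * c - (2 - 2 / τ) with hδ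
  have hδ0 : 0 < δ := by
    have : 2 / τ = 2 * (1 / τ) := by ring
    rw [hδ, this]; linarith
  -- C log N ≤ N^δ eventually
  have hlog : ∀ᶠ N : ℕ in atTop, C * Real.log N ≤ (N : ℝ) ^ δ := by
    have h1 := (isLittleO_log_rpow_atTop hδ0).comp_tendsto tendsto_natCast_atTop_atTop
    have h2 := h1.def (show (0:ℝ) < 1 / C by positivity)
    filter_upwards [h2, eventually_ge_atTop 1] with N hN hN1
    have hN1' : (1:ℝ) ≤ N := by exact_mod_cast hN1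
    simp only [Function.comp_apply, Real.norm_eq_abs] at hN
    rw [abs_of_nonneg (Real.log_nonneg hN1'), abs_of_nonneg (by positivity)] at hN
    calc C * Real.log N ≤ C * (1 / C * (N : ℝ) ^ δ) := by gcongr
      _ = (N : ℝ) ^ δ := by field_simp
  filter_upwards [hlog, eventually_ge_atTop 2] with N hN hN2
  have hN0 : (0:ℝ) < N := by positivity
  rw [weylSum_pt, Icc_shift]
  have h1 : ∀ n : ℕ, u * ((n + 1 : ℕ) : ℝ) + beta τ * ((n + 1 : ℕ) : ℝ) ^ 2 =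
      (u + beta τ) + (u + 2 * beta τ) * n + beta τ * (n : ℝ) ^ 2 := by
    intro n; push_cast; ring
  simp_rw [h1]
  have h2 := hup N hN2 (u + beta τ) (u + 2 * beta τ)
  set S := ‖∑ n ∈ range N, e ((u + beta τ) + (u + 2 * beta τ) * n + beta τ * (n : ℝ) ^ 2)‖
  have h3 : S ^ 2 ≤ ((N : ℝ) ^ c) ^ 2 := by
    calc S ^ 2 ≤ C * ((N:ℝ) ^ (2 - 2 / τ) * Real.log N) := h2
      _ = (N:ℝ) ^ (2 - 2 / τ) * (C * Real.log N) := by ring
      _ ≤ (N:ℝ) ^ (2 - 2 / τ) * (N : ℝ) ^ δ := by gcongr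
      _ = ((N : ℝ) ^ c) ^ 2 := by
          rw [← Real.rpow_add hN0, ← Real.rpow_natCast, ← Real.rpow_mul hN0.le]
          congr 1; rw [hδ]; push_cast; ring
  exact le_of_sq_le_sq h3 (by positivity)
where
  le_of_sq_le_sq {a b : ℝ} (h : a ^ 2 ≤ b ^ 2) (hb : 0 ≤ b) : a ≤ b := by
    exact (le_abs_self a).trans (abs_le_of_sq_le_sq h hb)

lemma low_pt (hτ : 3 < τ) (m : ℕ) (ω : ℕ → Fin 2) (c : ℝ) (hc : c < 1 - 1 / τ) :
    ∃ᶠ N : ℕ in atTop, (N : ℝ) ^ c ≤ ‖weylSum (m + 2) (pt m (XX (PP τ) ω) (beta τ)) N‖ := by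
  have hτ0 : 0 < τ := by linarith
  set α : ℝ := 1 - 1 / τ with hα
  have hα0 : 0 < α := by
    have : 1 / τ < 1 := by rw [div_lt_one hτ0]; linarith
    linarith
  -- N^c + 2 ≤ N^α / 52 eventually
  have hev : ∀ᶠ N : ℕ in atTop, (N : ℝ) ^ c + 2 ≤ (N : ℝ) ^ α / 52 := by
    have h1 : ∀ᶠ N : ℕ in atTop, (104:ℝ) ≤ (N : ℝ) ^ (α - c) :=
      ((tendsto_rpow_atTop (by linarith : 0 < α - c)).comp
        tendsto_natCast_atTop_atTop).eventually_ge_atTop 104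
    have h2 : ∀ᶠ N : ℕ in atTop, (208:ℝ) ≤ (N : ℝ) ^ α :=
      ((tendsto_rpow_atTop hα0).comp tendsto_natCast_atTop_atTop).eventually_ge_atTop 208
    filter_upwards [h1, h2, eventually_ge_atTop 1] with N a1 a2 a3
    have hN0 : (0:ℝ) < N := by exact_mod_cast a3
    have h3 : (N : ℝ) ^ α = (N : ℝ) ^ c * (N : ℝ) ^ (α - c) := by
      rw [← Real.rpow_add hN0]; congr 1; ring
    have h4 : 0 < (N : ℝ) ^ c := by positivity
    have h5 : 104 * (N : ℝ) ^ c ≤ (N : ℝ) ^ α := by rw [h3]; nlinarith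
    linarith
  have hfr : ∃ᶠ N : ℕ in atTop, (N : ℝ) ^ α / 52 ≤
      ‖∑ n ∈ range N, e (XX (PP τ) ω * n + beta τ * (n : ℝ) ^ 2)‖ := by
    rw [Filter.frequently_atTop]
    intro N₀
    obtain ⟨N, h1, h2⟩ := lower_inf hτ ω N₀
    exact ⟨N, h1, h2⟩
  refine (hfr.and_eventually hev).mono ?_
  rintro N ⟨h1, h2⟩
  rw [weylSum_pt]
  have h3 : ∑ n ∈ Finset.Icc 1 N, e (XX (PP τ) ω * n + beta τ * (n : ℝ) ^ 2) =
      ∑ n ∈ range N, e (XX (PP τ) ω * n + beta τ * (n : ℝ) ^ 2)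
        + (e (XX (PP τ) ω * N + beta τ * (N : ℝ) ^ 2) - e (XX (PP τ) ω * (0 : ℕ) + beta τ * ((0 : ℕ) : ℝ) ^ 2)) := by
    rw [Icc_shift]
    have h4 := Finset.sum_range_succ (fun n : ℕ => e (XX (PP τ) ω * n + beta τ * (n : ℝ) ^ 2)) N
    rw [Finset.sum_range_succ'] at h4
    linear_combination h4
  have h5 : ‖e (XX (PP τ) ω * N + beta τ * (N : ℝ) ^ 2) - e (XX (PP τ) ω * (0 : ℕ) + beta τ * ((0 : ℕ) : ℝ) ^ 2)‖ ≤ 2 := by
    refine le_trans (norm_sub_le _ _) ?_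
    rw [norm_e, norm_e]; norm_num
  rw [h3]
  have h6 := norm_sub_norm_le
    (∑ n ∈ range N, e (XX (PP τ) ω * n + beta τ * (n : ℝ) ^ 2))
    (-(e (XX (PP τ) ω * N + beta τ * (N : ℝ) ^ 2) - e (XX (PP τ) ω * (0 : ℕ) + beta τ * ((0 : ℕ) : ℝ) ^ 2)))
  rw [norm_neg, sub_neg_eq_add] at h6
  linarith

lemma growth_pt (hτ : 3 < τ) (m : ℕ) (ω : ℕ → Fin 2) :
    growthExponent (m + 2) (pt m (XX (PP τ) ω) (beta τ)) = ((1 - 1 / τ : ℝ) : EReal) :=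
  growth_eq _ _ (fun c hc => up_pt hτ m _ c hc) (fun c hc => low_pt hτ m ω c hc)

lemma pt_mem (hτ : 3 < τ) (m : ℕ) (ω : ℕ → Fin 2) :
    pt m (XX (PP τ) ω) (beta τ) ∈ Omega (m + 2) (1 - 1 / τ) := by
  refine ⟨?_, growth_pt hτ m ω⟩
  intro i
  simp only [pt, PiLp.toLp_apply]
  split_ifs
  · exact ⟨XX_nonneg _ _, XX_lt_one hτ ω⟩
  · exact ⟨beta_nonneg, beta_lt_one hτ⟩
  · exact ⟨le_rfl, one_pos⟩

lemma dim_pos (hτ : 3 < τ) (m : ℕ) : 0 < dimH (Omega (m + 2) (1 - 1 / τ)) := by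
  have h1 := dimH_XX hτ
  set pr : EuclideanSpace ℝ (Fin (m + 2)) →L[ℝ] ℝ := EuclideanSpace.proj (0 : Fin (m + 2)) with hpr
  have h2 : Set.range (XX (PP τ)) ⊆ pr '' (Omega (m + 2) (1 - 1 / τ)) := by
    rintro x ⟨ω, rfl⟩
    refine ⟨_, pt_mem hτ m ω, ?_⟩
    simp [hpr, pt]
  calc 0 < dimH (Set.range (XX (PP τ))) := h1
    _ ≤ dimH (pr '' (Omega (m + 2) (1 - 1 / τ))) := dimH_mono h2
    _ ≤ dimH (Omega (m + 2) (1 - 1 / τ)) := pr.lipschitz.dimH_image_le _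

/-- For every degree `d ≥ 2` all exponents `α ∈ (2/3, 1)` have level sets `Ω_α^{(d)}` of positive
Hausdorff dimension; in particular there is a set of exponents of positive Lebesgue measure with
this property, for every `d ≥ 2`. -/
theorem result : ∀ d : ℕ, 2 ≤ d →
    (∀ α : ℝ, 2 / 3 < α → α < 1 → 0 < dimH (Omega d α)) ∧
    ∃ A : Set ℝ, A ⊆ Set.Icc 0 1 ∧ 0 < volume A ∧ ∀ α ∈ A, 0 < dimH (Omega d α) := by
  intro d hd
  obtain ⟨m, rfl⟩ : ∃ m, d = m + 2 := ⟨d - 2, by omega⟩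
  have hmain : ∀ α : ℝ, 2 / 3 < α → α < 1 → 0 < dimH (Omega (m + 2) α) := by
    intro α h1 h2
    have h3 : 0 < 1 - α := by linarith
    have hτ : 3 < 1 / (1 - α) := by
      rw [lt_div_iff₀ h3]; linarith
    have h4 : 1 - 1 / (1 / (1 - α)) = α := by
      rw [one_div_one_div]; ring
    have := dim_pos hτ m
    rwa [h4] at this
  refine ⟨hmain, Set.Ioo (2/3) 1, ?_, ?_, ?_⟩
  · intro x hx; exact ⟨by linarith [hx.1], hx.2.le⟩
  · rw [Real.volume_Ioo]; norm_num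
  · intro α hα; exact hmain α hα.1 hα.2

end Pool.Agent.Results.MP_3c4aa6_nt.PositiveMeasure
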